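import Pool.Agent.Cub6.Main

/-!
# MP_d49a1c_nt: almost no integer occurs as `y` or as `z` in a solution

The set of all integers `w` which are the `y` or the `z` of an integer solution of `6 + x ^ 3 - y ^ 2 + y ^ 2 z ^ 2 = 0` has
natural density zero: the number of its elements in `[- N, N]`, divided by `N`, tends to `0`.
-/

open Finset

namespace Pool.Agent.Results.MP_d49a1c_nt.DensityZero

theorem result : Filter.Tendsto (fun N : ℕ => ({w : ℤ | |w| ≤ N ∧ ∃ x y z : ℤ,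
    6 + x ^ 3 - y ^ 2 + y ^ 2 * z ^ 2 = 0 ∧ (w = y ∨ w = z)}.ncard : ℝ) / N)
    Filter.atTop (nhds 0) := by
  classical
  rw [Metric.tendsto_atTop]
  intro ε hε
  obtain ⟨N0, hN0⟩ := Pool.Agent.Cub6.main (ε := ε / 4) (by positivity)
  refine ⟨N0 + 1, fun N hN => ?_⟩
  obtain ⟨h1, h2⟩ := hN0 N (by omega)
  have hNpos : (0 : ℝ) < N := by
    have : 0 < N := by omega
    exact_mod_cast this
  set A := (Finset.Icc (-(N : ℤ)) N).filter fun z => ∃ x y : ℤ,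
    6 + x ^ 3 - y ^ 2 + y ^ 2 * z ^ 2 = 0 with hA
  set B := (Finset.Icc (-(N : ℤ)) N).filter fun y => ∃ x z : ℤ,
    6 + x ^ 3 - y ^ 2 + y ^ 2 * z ^ 2 = 0 with hB
  have hsub : {w : ℤ | |w| ≤ N ∧ ∃ x y z : ℤ,
      6 + x ^ 3 - y ^ 2 + y ^ 2 * z ^ 2 = 0 ∧ (w = y ∨ w = z)} ⊆ ((A ∪ B : Finset ℤ) : Set ℤ) := by
    rintro w ⟨hw, x, y, z, he, rfl | rfl⟩
    · rw [Finset.coe_union]
      right
      simp only [hB, Finset.coe_filter, Finset.mem_Icc, Set.mem_setOf_eq]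
      exact ⟨abs_le.1 hw, x, z, he⟩
    · rw [Finset.coe_union]
      left
      simp only [hA, Finset.coe_filter, Finset.mem_Icc, Set.mem_setOf_eq]
      exact ⟨abs_le.1 hw, x, y, he⟩
  have hcard : ({w : ℤ | |w| ≤ N ∧ ∃ x y z : ℤ,
      6 + x ^ 3 - y ^ 2 + y ^ 2 * z ^ 2 = 0 ∧ (w = y ∨ w = z)}.ncard : ℝ) ≤ ε / 2 * N := by
    have h3 := Set.ncard_le_ncard hsub (Finset.finite_toSet _)
    rw [Set.ncard_coe_finset] at h3
    have h4 : ((A ∪ B).card : ℝ) ≤ A.card + B.card := by exact_mod_cast Finset.card_union_le A B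
    have h5 : ({w : ℤ | |w| ≤ N ∧ ∃ x y z : ℤ,
      6 + x ^ 3 - y ^ 2 + y ^ 2 * z ^ 2 = 0 ∧ (w = y ∨ w = z)}.ncard : ℝ) ≤ (A ∪ B).card := by
      exact_mod_cast h3
    linarith
  rw [Real.dist_eq, sub_zero, abs_of_nonneg (by positivity), div_lt_iff₀ hNpos]
  nlinarith
end Pool.Agent.Results.MP_d49a1c_nt.DensityZero
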