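import Pool.Agent.FSol.Main

/-!
# MP_d49a1c_nt: few solutions with bounded `x`

For every `ε > 0` there is a constant `C` such that for every `N ≥ 1` the equation `6 + x ^ 3 - y ^ 2 + y ^ 2 z ^ 2 = 0` has only
finitely many integer solutions `(x, y, z)` with `|x| ≤ N`, and at most `C N ^ (11 / 12 + ε)` of them.
-/

namespace Pool.Agent.Results.MP_d49a1c_nt.FewSolutions

theorem result (ε : ℝ) (hε : 0 < ε) : ∃ C : ℝ, ∀ N : ℕ, 1 ≤ N →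
    {t : ℤ × ℤ × ℤ | |t.1| ≤ (N : ℤ) ∧
      6 + t.1 ^ 3 - t.2.1 ^ 2 + t.2.1 ^ 2 * t.2.2 ^ 2 = 0}.Finite ∧
    ({t : ℤ × ℤ × ℤ | |t.1| ≤ (N : ℤ) ∧
      6 + t.1 ^ 3 - t.2.1 ^ 2 + t.2.1 ^ 2 * t.2.2 ^ 2 = 0}.ncard : ℝ) ≤
      C * (N : ℝ) ^ (11 / 12 + ε : ℝ) :=
  Pool.Agent.FSol.main hε

end Pool.Agent.Results.MP_d49a1c_nt.FewSolutions
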