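import Pool.Agent.D49.Y

set_option autoImplicit false

/-!
# MP_d49a1c_nt: reciprocity laws for the solutions of `6 + x³ - y² + y² z² = 0`

For every integer solution `y` is odd, `z` is even, `|z| ≥ 2`, the Jacobi symbol of
`N = x² - 2x + 4` over `z² - 1` is `-1`, and the one over `y² + 2` is not `1`.  Proof: `N` is `7`
modulo `8`, `y² (z² - 1) = 2 - (x + 2) N`, so `2 (z² - 1)` has Jacobi symbol `1` over `N`, and
`(y z)² = y² + 2 - (x + 2) N`; `N`, `z² - 1` and `y² + 2` are `3` modulo `4`.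

This excludes infinite families of `z` and of `y`.  (helper97, helper98, helper79)
-/

open NumberTheorySymbols jacobiSym

namespace Pool.Agent.Results.MP_d49a1c_nt.Reciprocity

lemma mod8 (x y z : ℤ) (h : 6 + x ^ 3 - y ^ 2 + y ^ 2 * z ^ 2 = 0) :
    Odd y ∧ Even z ∧ (x ^ 2 - 2 * x + 4) % 8 = 7 := by
  have key : ∀ a b c : ZMod 8, 6 + a ^ 3 - b ^ 2 + b ^ 2 * c ^ 2 = 0 →
      4 * b - 4 = 0 ∧ 4 * c = 0 ∧ a ^ 2 - 2 * a + 4 - 7 = 0 := by decide +kernel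
  have h1 : (6 + (x : ZMod 8) ^ 3 - (y : ZMod 8) ^ 2 + (y : ZMod 8) ^ 2 * (z : ZMod 8) ^ 2) = 0 := by
    have := congrArg (Int.cast : ℤ → ZMod 8) h
    push_cast at this
    exact this
  obtain ⟨h0, h2, h3⟩ := key _ _ _ h1
  have h6 : (8 : ℤ) ∣ 4 * y - 4 := by
    have : ((4 * y - 4 : ℤ) : ZMod 8) = 0 := by push_cast; exact h0
    exact (ZMod.intCast_zmod_eq_zero_iff_dvd _ 8).1 this
  have h4 : (8 : ℤ) ∣ 4 * z := by
    have : ((4 * z : ℤ) : ZMod 8) = 0 := by push_cast; exact h2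
    exact (ZMod.intCast_zmod_eq_zero_iff_dvd _ 8).1 this
  have h5 : (8 : ℤ) ∣ x ^ 2 - 2 * x + 4 - 7 := by
    have : ((x ^ 2 - 2 * x + 4 - 7 : ℤ) : ZMod 8) = 0 := by push_cast; exact h3
    exact (ZMod.intCast_zmod_eq_zero_iff_dvd _ 8).1 this
  refine ⟨?_, ?_, by omega⟩
  · obtain ⟨k, hk⟩ := h6
    exact ⟨k, by omega⟩
  · obtain ⟨k, hk⟩ := h4
    exact ⟨k, by omega⟩

lemma main (x y z : ℤ) (h : 6 + x ^ 3 - y ^ 2 + y ^ 2 * z ^ 2 = 0) :
    Odd y ∧ Even z ∧ 1 < |z| ∧ J(x ^ 2 - 2 * x + 4 | (z ^ 2 - 1).natAbs) = -1 ∧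
      J(x ^ 2 - 2 * x + 4 | (y ^ 2 + 2).natAbs) ≠ 1 := by
  obtain ⟨hy, hz, hN⟩ := mod8 x y z h
  have hpos : 0 < x ^ 2 - 2 * x + 4 := by nlinarith [sq_nonneg (x - 1)]
  obtain ⟨n, hn⟩ : ∃ n : ℕ, (n : ℤ) = x ^ 2 - 2 * x + 4 :=
    ⟨(x ^ 2 - 2 * x + 4).toNat, Int.toNat_of_nonneg hpos.le⟩
  have hn8 : n % 8 = 7 := by
    rw [← hn] at hN
    omega
  have hnodd : Odd n := Nat.odd_iff.2 (by omega)
  have h1 : J(2 * y ^ 2 * (z ^ 2 - 1) | n) = 1 := by
    have e : (2 * y ^ 2 * (z ^ 2 - 1)) = 4 + n * (-2 * (x + 2)) := by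
      rw [hn]
      linear_combination 2 * h
    rw [e, mod_left, Int.add_mul_emod_self_left, ← mod_left]
    exact at_four hnodd
  have h2 : J(2 | n) = 1 := by
    rw [at_two hnodd, ZMod.χ₈_nat_eq_if_mod_eight]
    rw [if_neg (by omega), if_pos (Or.inr hn8)]
  have h3 : J(z ^ 2 - 1 | n) = 1 := by
    rw [mul_left, mul_left, h2, one_mul, pow_left] at h1
    rcases trichotomy y n with h | h | h <;> rw [h] at h1 <;> simp at h1 ⊢ <;> exact h1
  obtain ⟨k, hk⟩ := hz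
  have hz0 : z ≠ 0 := by
    rintro rfl
    have h4 : J(-1 | n) = 1 := by simpa using h3
    rw [at_neg_one hnodd, ZMod.χ₄_nat_three_mod_four (by omega)] at h4
    norm_num at h4
  have hk0 : k ≠ 0 := by
    rintro rfl
    exact hz0 (by omega)
  have hk1 : 1 ≤ k ^ 2 := by
    have := sq_nonneg k
    have h5 : k ^ 2 ≠ 0 := pow_ne_zero 2 hk0
    omega
  have hzz : z ^ 2 = 4 * k ^ 2 := by rw [hk]; ring
  obtain ⟨m, hm⟩ : ∃ m : ℕ, (m : ℤ) = z ^ 2 - 1 :=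
    ⟨(z ^ 2 - 1).toNat, Int.toNat_of_nonneg (by omega)⟩
  have hm4 : m % 4 = 3 := by omega
  refine ⟨hy, ⟨k, hk⟩, ?_, ?_, ?_⟩
  · by_contra hcon
    have : |z| ≤ 1 := not_lt.1 hcon
    have := abs_le.1 this
    omega
  · rw [← hm, Int.natAbs_natCast, ← hn]
    rw [← hm] at h3
    have h6 := quadratic_reciprocity_three_mod_four (a := m) (b := n) hm4 (by omega)
    rw [h3] at h6
    omega
  · obtain ⟨j, hj⟩ := hy
    obtain ⟨q, hq⟩ : ∃ q : ℕ, (q : ℤ) = y ^ 2 + 2 :=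
      ⟨(y ^ 2 + 2).toNat, Int.toNat_of_nonneg (by positivity)⟩
    have hyy : y ^ 2 = 4 * (j ^ 2 + j) + 1 := by rw [hj]; ring
    have hq4 : q % 4 = 3 := by omega
    rw [← hq, Int.natAbs_natCast, ← hn,
      quadratic_reciprocity_three_mod_four (a := n) (b := q) (by omega) hq4]
    have e : (q : ℤ) = (y * z) ^ 2 + n * (x + 2) := by
      rw [hn, hq]
      linear_combination -h
    rw [e, mod_left, Int.add_mul_emod_self_left, ← mod_left, pow_left]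
    rcases trichotomy (y * z) n with h | h | h <;> rw [h] <;> norm_num

/-- The Jacobi symbol of `t² + 2t + 4` over `D` is `e` for all cube roots `t` of `6` modulo `D`. -/
def Val (D : ℕ) (e : ℤ) : Prop := ∀ t : ℤ, (D : ℤ) ∣ t ^ 3 - 6 → J(t ^ 2 + 2 * t + 4 | D) = e

/-- The case of one cube root `r` modulo `D`. -/
lemma val_of {D : ℕ} {e : ℤ} (hD : 0 < D) (r : ℕ)
    (hr : ∀ c < D, c ^ 3 % D = 6 % D → c = r) (hJ : J((r : ℤ) ^ 2 + 2 * r + 4 | D) = e) :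
    Val D e := by
  intro c hc
  have hD' : (D : ℤ) ≠ 0 := by exact_mod_cast hD.ne'
  obtain ⟨k, hk⟩ : ∃ k : ℕ, (k : ℤ) = c % D :=
    ⟨(c % D).toNat, Int.toNat_of_nonneg (Int.emod_nonneg _ hD')⟩
  have hk1 : k < D := by
    have := Int.emod_lt_of_pos c (b := (D : ℤ)) (by exact_mod_cast hD)
    omega
  have hk2 : k ^ 3 % D = 6 % D := by
    have h1 : c ^ 3 % D = 6 % D := ((Int.modEq_iff_dvd).2 hc).symm
    have h2 : (k : ℤ) ^ 3 % D = 6 % D := by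
      rw [hk, ← h1]
      exact (Int.mod_modEq c D).pow 3
    exact_mod_cast h2
  have hk3 := hr k hk1 hk2
  have e : c % D = (r : ℤ) % D := by
    rw [← hk3, hk, Int.emod_emod_of_dvd _ dvd_rfl]
  have e2 : (c ^ 2 + 2 * c + 4) % D = ((r : ℤ) ^ 2 + 2 * r + 4) % D :=
    (((Int.ModEq.pow 2 e).add (Int.ModEq.mul_left 2 e)).add_right 4)
  rw [jacobiSym.mod_left' e2]
  exact hJ

lemma val_mul {D E : ℕ} {d e : ℤ} (hD : D ≠ 0) (hE : E ≠ 0) (h1 : Val D d) (h2 : Val E e) :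
    Val (D * E) (d * e) := by
  intro t ht
  push_cast at ht
  rw [mul_right' _ hD hE, h1 t ((Dvd.intro _ rfl).trans ht), h2 t ((Dvd.intro_left _ rfl).trans ht)]

lemma val3 : Val 3 1 := val_of (by norm_num) 0 (by decide +kernel) (by norm_num)
lemma val5 : Val 5 (-1) := val_of (by norm_num) 1 (by decide +kernel) (by norm_num)
lemma val17 : Val 17 (-1) := val_of (by norm_num) 5 (by decide +kernel) (by norm_num)
lemma val23 : Val 23 (-1) := val_of (by norm_num) 8 (by decide +kernel) (by norm_num)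
lemma val29 : Val 29 1 := val_of (by norm_num) 4 (by decide +kernel) (by norm_num)
lemma val47 : Val 47 1 := val_of (by norm_num) 24 (by decide +kernel) (by norm_num)
lemma val53 : Val 53 (-1) := val_of (by norm_num) 11 (by decide +kernel) (by norm_num)
lemma val71 : Val 71 (-1) := val_of (by norm_num) 10 (by decide +kernel) (by norm_num)
lemma val89 : Val 89 1 := val_of (by norm_num) 19 (by decide +kernel) (by norm_num)

lemma excl_of {D : ℕ} (h : Val D 1) :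
    ∀ t : ℤ, (D : ℤ) ∣ t ^ 3 - 6 → J(t ^ 2 + 2 * t + 4 | D) ≠ -1 := by
  intro t ht
  rw [h t ht]
  norm_num

lemma excl3 {A B C : ℕ} {a b c : ℤ} (hA : A ≠ 0) (hB : B ≠ 0) (hC : C ≠ 0) (h1 : Val A a)
    (h2 : Val B b) (h3 : Val C c) (h : a * b * c = 1) : Val (A * B * C) 1 := by
  have := val_mul (mul_ne_zero hA hB) hC (val_mul hA hB h1 h2) h3
  rwa [h] at this

/-- For even `u ≥ 2` there are infinitely many even `z` with `z ^ 2 - 1 = (u ^ 2 - 1) m ^ 2`. -/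
lemma infinite_family {u : ℤ} (hu : 2 ≤ u) (hu2 : 2 ∣ u) (N : ℕ) :
    ∃ z m : ℤ, (N : ℤ) < z ∧ 2 ∣ z ∧ z ^ 2 - 1 = (u ^ 2 - 1) * m ^ 2 := by
  induction N with
  | zero => exact ⟨u, 1, by push_cast; omega, hu2, by ring⟩
  | succ N ih =>
    obtain ⟨z, m, h1, h2, h3⟩ := ih
    refine ⟨4 * z ^ 3 - 3 * z, m * (4 * z ^ 2 - 1), ?_, ?_, ?_⟩
    · have hz : 1 ≤ z := by omega
      have h4 : 1 ≤ z ^ 2 := one_le_pow₀ hz
      have h5 : z ≤ z ^ 3 := by nlinarith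
      have hz2 : 2 ≤ z := by omega
      push_cast
      nlinarith
    · obtain ⟨t, rfl⟩ := h2
      exact ⟨4 * 4 * t ^ 3 - 3 * t, by ring⟩
    · rw [mul_pow, ← mul_assoc, ← h3]
      ring

lemma inf_set {D : ℕ} {u v : ℤ} (hu : 2 ≤ u) (hu2 : 2 ∣ u) (h : u ^ 2 - 1 = D * v ^ 2) :
    {z : ℤ | Even z ∧ ∃ w : ℤ, z ^ 2 - 1 = D * w ^ 2}.Infinite := by
  intro hfin
  obtain ⟨B, hB⟩ := hfin.bddAbove
  obtain ⟨z, m, h1, h2, h3⟩ := infinite_family hu hu2 B.toNat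
  have h4 : z ≤ B := hB ⟨even_iff_two_dvd.2 h2, v * m, by rw [h3, h]; ring⟩
  omega

/-- **Reciprocity laws** for all solutions, and the infinite families which they exclude. -/
theorem result :
    (∀ x y z : ℤ, 6 + x ^ 3 - y ^ 2 + y ^ 2 * z ^ 2 = 0 →
      Odd y ∧ Even z ∧ 1 < |z| ∧
        jacobiSym (x ^ 2 - 2 * x + 4) (z ^ 2 - 1).natAbs = -1 ∧
        jacobiSym (x ^ 2 - 2 * x + 4) (y ^ 2 + 2).natAbs ≠ 1) ∧
    (∀ D : ℕ, (∀ t : ℤ, (D : ℤ) ∣ t ^ 3 - 6 → jacobiSym (t ^ 2 + 2 * t + 4) D ≠ -1) →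
      ∀ x y z w : ℤ, z ^ 2 - 1 = D * w ^ 2 → 6 + x ^ 3 - y ^ 2 + y ^ 2 * z ^ 2 ≠ 0) ∧
    (∀ D ∈ ({3, 47, 255, 2703, 4899, 7743} : Set ℕ),
      (∀ t : ℤ, (D : ℤ) ∣ t ^ 3 - 6 → jacobiSym (t ^ 2 + 2 * t + 4) D ≠ -1) ∧
      {z : ℤ | Even z ∧ ∃ w : ℤ, z ^ 2 - 1 = D * w ^ 2}.Infinite) ∧
    (∀ x y z s : ℤ, ¬ 3 ∣ s → y ^ 2 + 2 = 3 * s ^ 2 → 6 + x ^ 3 - y ^ 2 + y ^ 2 * z ^ 2 ≠ 0) := by
  refine ⟨main, ?_, ?_, Pool.Agent.Cub79.yfam⟩
  · intro D hD x y z w hw h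
    obtain ⟨-, -, -, hJ, -⟩ := main x y z h
    have e : (z ^ 2 - 1).natAbs = D * w.natAbs ^ 2 := by
      rw [hw, Int.natAbs_mul, Int.natAbs_natCast, Int.natAbs_pow]
    have hz0 : (z ^ 2 - 1).natAbs ≠ 0 := by
      intro h0
      rw [h0, zero_right] at hJ
      norm_num at hJ
    have hD0 : D ≠ 0 := by
      rintro rfl
      exact hz0 (by rw [e, zero_mul])
    have hw0 : w.natAbs ^ 2 ≠ 0 := by
      intro h0
      exact hz0 (by rw [e, h0, mul_zero])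
    rw [e, mul_right' _ hD0 hw0, pow_right] at hJ
    have h1 : (D : ℤ) ∣ (-x) ^ 3 - 6 := ⟨y ^ 2 * w ^ 2, by linear_combination -h + y ^ 2 * hw⟩
    have h3 := hD (-x) h1
    rw [show (-x) ^ 2 + 2 * -x + 4 = x ^ 2 - 2 * x + 4 by ring] at h3
    rcases trichotomy (x ^ 2 - 2 * x + 4) w.natAbs with h4 | h4 | h4 <;> rw [h4] at hJ
    · norm_num at hJ
    · exact h3 (by simpa using hJ)
    · exact h3 (by simpa using hJ)
  · rintro D (rfl | rfl | rfl | rfl | rfl | rfl)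
    · exact ⟨excl_of val3, inf_set (u := 2) (v := 1) (by norm_num) (by norm_num) (by norm_num)⟩
    · exact ⟨excl_of val47, inf_set (u := 48) (v := 7) (by norm_num) (by norm_num) (by norm_num)⟩
    · exact ⟨excl_of (excl3 (A := 3) (B := 5) (C := 17) (by norm_num) (by norm_num) (by norm_num)
          val3 val5 val17 (by norm_num)),
        inf_set (u := 16) (v := 1) (by norm_num) (by norm_num) (by norm_num)⟩
    · exact ⟨excl_of (excl3 (A := 3) (B := 17) (C := 53) (by norm_num) (by norm_num) (by norm_num)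
          val3 val17 val53 (by norm_num)),
        inf_set (u := 52) (v := 1) (by norm_num) (by norm_num) (by norm_num)⟩
    · exact ⟨excl_of (excl3 (A := 3) (B := 23) (C := 71) (by norm_num) (by norm_num) (by norm_num)
          val3 val23 val71 (by norm_num)),
        inf_set (u := 70) (v := 1) (by norm_num) (by norm_num) (by norm_num)⟩
    · exact ⟨excl_of (excl3 (A := 3) (B := 29) (C := 89) (by norm_num) (by norm_num) (by norm_num)
          val3 val29 val89 (by norm_num)),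
        inf_set (u := 88) (v := 1) (by norm_num) (by norm_num) (by norm_num)⟩

end Pool.Agent.Results.MP_d49a1c_nt.Reciprocity
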