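import Pool.Agent.FSolB.Box3

/-!
# MP_d49a1c_nt: the solutions with a given `z` or a given `y`, and in a box

For every `ε > 0` there is a constant `C` such that, for the equation `6 + x ^ 3 - y ^ 2 + y ^ 2 z ^ 2 = 0` in integers and all
`Y, Z ≥ 1`: for every `z` at most `C |z| ^ ε (1 + (Y / z ^ 2) ^ (2 / 3))` pairs `(x, y)` with `|y| ≤ Y` solve it; for every `y` at most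
`C |y| ^ ε (1 + (Z / y ^ 2) ^ (2 / 3))` pairs `(x, z)` with `|z| ≤ Z` solve it; and at most `C Z ^ ε (Z + Y ^ (2 / 3))`, and at most
`C Y ^ ε (Y + Z ^ (2 / 3))`, triples with `|y| ≤ Y` and `|z| ≤ Z` solve it.
-/

namespace Pool.Agent.Results.MP_d49a1c_nt.SmallerVariable

theorem result (ε : ℝ) (hε : 0 < ε) : ∃ C : ℝ,
    (∀ z : ℤ, ∀ Y : ℕ, 1 ≤ Y →
      {t : ℤ × ℤ | |t.2| ≤ (Y : ℤ) ∧ 6 + t.1 ^ 3 - t.2 ^ 2 + t.2 ^ 2 * z ^ 2 = 0}.Finite ∧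
      ({t : ℤ × ℤ | |t.2| ≤ (Y : ℤ) ∧ 6 + t.1 ^ 3 - t.2 ^ 2 + t.2 ^ 2 * z ^ 2 = 0}.ncard : ℝ) ≤
        C * |(z : ℝ)| ^ ε * (1 + ((Y : ℝ) / (z : ℝ) ^ 2) ^ (2 / 3 : ℝ))) ∧
    (∀ y : ℤ, ∀ Z : ℕ, 1 ≤ Z →
      {t : ℤ × ℤ | |t.2| ≤ (Z : ℤ) ∧ 6 + t.1 ^ 3 - y ^ 2 + y ^ 2 * t.2 ^ 2 = 0}.Finite ∧
      ({t : ℤ × ℤ | |t.2| ≤ (Z : ℤ) ∧ 6 + t.1 ^ 3 - y ^ 2 + y ^ 2 * t.2 ^ 2 = 0}.ncard : ℝ) ≤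
        C * |(y : ℝ)| ^ ε * (1 + ((Z : ℝ) / (y : ℝ) ^ 2) ^ (2 / 3 : ℝ))) ∧
    (∀ Y Z : ℕ, 1 ≤ Y → 1 ≤ Z →
      {t : ℤ × ℤ × ℤ | |t.2.1| ≤ (Y : ℤ) ∧ |t.2.2| ≤ (Z : ℤ) ∧
        6 + t.1 ^ 3 - t.2.1 ^ 2 + t.2.1 ^ 2 * t.2.2 ^ 2 = 0}.Finite ∧
      ({t : ℤ × ℤ × ℤ | |t.2.1| ≤ (Y : ℤ) ∧ |t.2.2| ≤ (Z : ℤ) ∧
        6 + t.1 ^ 3 - t.2.1 ^ 2 + t.2.1 ^ 2 * t.2.2 ^ 2 = 0}.ncard : ℝ) ≤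
          C * (Z : ℝ) ^ ε * (Z + (Y : ℝ) ^ (2 / 3 : ℝ)) ∧
      ({t : ℤ × ℤ × ℤ | |t.2.1| ≤ (Y : ℤ) ∧ |t.2.2| ≤ (Z : ℤ) ∧
        6 + t.1 ^ 3 - t.2.1 ^ 2 + t.2.1 ^ 2 * t.2.2 ^ 2 = 0}.ncard : ℝ) ≤
          C * (Y : ℝ) ^ ε * (Y + (Z : ℝ) ^ (2 / 3 : ℝ))) :=
  Pool.Agent.FSolB.main hε

end Pool.Agent.Results.MP_d49a1c_nt.SmallerVariable
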